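import Pool.Agent.K1H73.LS.QX
import Pool.Agent.K1H73.LS.BlkF

/-!
# The exact positions of the `n` with `n` and `n ^ 2 + n + 1` almost prime in short blocks

Uniformly in all progressions `n = q m + b` with `q, b ≤ X ^ C` and in all intervals of length at least `X ^ θ`: the
number of the `m` for which the good integers (neither `n` nor `n ^ 2 + n + 1` has a prime factor `≤ z = X ^ (1 / r)`)
in `[m, m + T]` are EXACTLY `m + h`, `h ∈ J`, for every `J` of bounded size with `0 ∈ J` and all `T` up to a constant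
times the mean distance: the density of the pattern `J` times `exp (- T V)`; `V` has the local factors of the
conjectured constant `H`.

The exact block law for systems of polynomials is the theorem `blocks'` of `Pool.Agent.R463.PS` of the starting files.
New here: its conditions in progressions with moduli up to any power of `X`, the bound for the density there
(`phi_up`, `V_prog`, `us_prog`, `blkF`), the local factors, and the application.
-/

set_option autoImplicit false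

namespace Pool.Agent.Results.MP_82233c_nt.ExactBlocks

open Finset Filter
open Pool.Agent.K1H73

/-- the product `n (n ^ 2 + n + 1)` -/
def prodAt (n : ℕ) : ℕ := n * (n ^ 2 + n + 1)

/-- neither `n` nor `n ^ 2 + n + 1`, where `n = q m + b`, has a prime factor `≤ z` -/
def Good (q b z m : ℕ) : Prop := ∀ l : ℕ, l.Prime → l ≤ z → ¬ l ∣ prodAt (q * m + b)

/-- `2 + χ(l)`: the number of the zeros of `n (n ^ 2 + n + 1)` modulo the prime `l` -/
def rho (l : ℕ) : ℕ := if l % 3 = 1 then 3 else if l % 3 = 2 then 1 else 2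

/-- the density of the good integers: the product over the primes `l ≤ z` which do not divide `q` -/
noncomputable def V (q z : ℕ) : ℝ :=
  ∏ l ∈ (Finset.range (z + 1)).filter Nat.Prime, (1 - ((if l ∣ q then 0 else rho l : ℕ) : ℝ) / l)

open Classical in
/-- the number of the classes `m` modulo `l` such that `l` divides `n (n ^ 2 + n + 1)`, `n = q (m + h) + b`, for some
`h ∈ J` -/
noncomputable def rhoJ (q b : ℕ) (J : Finset ℕ) (l : ℕ) : ℕ :=
  ((Finset.range l).filter (fun m : ℕ => ∃ h ∈ J, l ∣ prodAt (q * (m + h) + b))).card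

/-- the density of the pattern `J` -/
noncomputable def VJ (q b : ℕ) (J : Finset ℕ) (z : ℕ) : ℝ :=
  ∏ l ∈ (Finset.range (z + 1)).filter Nat.Prime, (1 - (rhoJ q b J l : ℝ) / l)

open Classical in
/-- the number of the `m` in `(u, u + Y]` for which the good integers in `[m, m + T]` are exactly the `m + h`,
`h ∈ J` -/
noncomputable def Blocks (q b z : ℕ) (J : Finset ℕ) (T u Y : ℕ) : ℕ :=
  ((Ioc u (u + Y)).filter (fun m => ∀ h ≤ T, Good q b z (m + h) ↔ h ∈ J)).card

lemma Q_iff (q b : ℕ) {p : ℕ} (hp : p.Prime) (m : ℕ) :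
    Pool.Agent.W123.RU.Poly.Q (LS.sq q b LS.f3) p m ↔ p ∣ prodAt (q * m + b) := by
  rw [LS.sq_Q, LS.f3_iff hp]
  rfl

lemma good_eq (q b z : ℕ) : Pool.Agent.TH464.PO.Sf (Pool.Agent.W123.RU.Poly.Q (LS.sq q b LS.f3)) z = Good q b z := by
  funext m
  apply propext
  unfold Good Pool.Agent.TH464.PO.Sf
  constructor
  · intro h p hp hpz hd
    apply h p _ ((Q_iff q b hp m).2 hd)
    unfold Pool.Agent.H373R2.T7.pz
    rw [mem_filter, mem_Icc]
    exact ⟨⟨hp.pos, hpz⟩, hp⟩
  · intro h p hp hd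
    unfold Pool.Agent.H373R2.T7.pz at hp
    rw [mem_filter, mem_Icc] at hp
    exact h p hp.2 hp.1.2 ((Q_iff q b hp.2 m).1 hd)

/-- few prime factors -/
theorem few {X z r C : ℕ} (hr : 1 ≤ r) (hC : C ≠ 0) (hz : z = ⌊(X : ℝ) ^ (1 / (r : ℝ))⌋₊) (hz1 : 1 ≤ z) {x : ℕ}
    (hx0 : x ≠ 0) (hx : x ≤ X ^ C + 1) (h : ∀ l : ℕ, l.Prime → l ≤ z → ¬ l ∣ x) :
    x.primeFactorsList.length ≤ r * C := by
  by_contra hcon
  rw [not_le] at hcon
  have h1 : ∀ l ∈ x.primeFactorsList, z + 1 ≤ l := by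
    intro l hl
    by_contra h2
    exact h l (Nat.prime_of_mem_primeFactorsList hl) (by omega) (Nat.dvd_of_mem_primeFactorsList hl)
  have h2 : (z + 1) ^ x.primeFactorsList.length ≤ x := by
    have h3 : (z + 1) ^ x.primeFactorsList.length ≤ x.primeFactorsList.prod :=
      List.pow_card_le_prod _ _ h1
    rwa [Nat.prod_primeFactorsList hx0] at h3
  have h4 : (z + 1) ^ (r * C + 1) ≤ (z + 1) ^ x.primeFactorsList.length := Nat.pow_le_pow_right (by omega) (by omega)
  have h5 : (X : ℝ) < ((z + 1 : ℕ) : ℝ) ^ r := by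
    have h6 : (X : ℝ) ^ (1 / (r : ℝ)) < ((z + 1 : ℕ) : ℝ) := by
      rw [hz]
      push_cast
      exact Nat.lt_floor_add_one _
    have h7 : ((X : ℝ) ^ (1 / (r : ℝ))) ^ r < ((z + 1 : ℕ) : ℝ) ^ r :=
      pow_lt_pow_left₀ h6 (by positivity) (by omega)
    rwa [← Real.rpow_natCast, ← Real.rpow_mul (Nat.cast_nonneg X), one_div,
      inv_mul_cancel₀ (by positivity), Real.rpow_one] at h7
  have h6 : X < (z + 1) ^ r := by exact_mod_cast h5
  have h7 : X ^ C < (z + 1) ^ (r * C) := by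
    rw [pow_mul]
    exact Nat.pow_lt_pow_left h6 hC
  have h8 : (z + 1) ^ (r * C + 1) = (z + 1) ^ (r * C) * (z + 1) := pow_succ _ _
  have h9 : (z + 1) ^ (r * C) * 2 ≤ (z + 1) ^ (r * C) * (z + 1) := Nat.mul_le_mul_left _ (by omega)
  omega

lemma pz_eq (z : ℕ) : Pool.Agent.H373R2.T7.pz z = (Finset.range (z + 1)).filter Nat.Prime := by
  unfold Pool.Agent.H373R2.T7.pz
  ext p
  rw [mem_filter, mem_filter, mem_Icc, mem_range]
  constructor
  · rintro ⟨h1, h2⟩
    exact ⟨by omega, h2⟩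
  · rintro ⟨h1, h2⟩
    exact ⟨⟨h2.pos, by omega⟩, h2⟩

lemma nu_eq {q b : ℕ} (hco : Nat.Coprime (prodAt b) q) {l : ℕ} (hl : l.Prime) :
    Pool.Agent.H373R2.T7.nuB (Pool.Agent.W123.RU.Poly.Q (LS.sq q b LS.f3)) l = if l ∣ q then 0 else rho l := by
  rw [LS.nuB_sq hl (by
      intro hlq i hd
      have h1 : l ∣ prodAt b := (LS.f3_iff hl b).1 ⟨i, hd⟩
      have h2 := Nat.dvd_gcd h1 hlq
      rw [hco] at h2
      exact hl.one_lt.ne' (Nat.dvd_one.1 h2)), LS.om3 hl]
  rfl

lemma V_eq {q b : ℕ} (hco : Nat.Coprime (prodAt b) q) (z : ℕ) :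
    Pool.Agent.W123.RP.Vq (Pool.Agent.W123.RU.Poly.Q (LS.sq q b LS.f3)) z = V q z := by
  unfold Pool.Agent.W123.RP.Vq V
  rw [pz_eq]
  apply Finset.prod_congr rfl
  intro l hl
  rw [nu_eq hco (mem_filter.1 hl).2]

open Classical in
lemma VJ_eq (q b : ℕ) (J : Finset ℕ) (z : ℕ) :
    Pool.Agent.W123.RP.Vq (Pool.Agent.TH464.PO.QH (Pool.Agent.W123.RU.Poly.Q (LS.sq q b LS.f3)) J) z =
      VJ q b J z := by
  unfold Pool.Agent.W123.RP.Vq VJ
  rw [pz_eq]
  apply Finset.prod_congr rfl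
  intro l hl
  have hlp := (mem_filter.1 hl).2
  have : Pool.Agent.H373R2.T7.nuB (Pool.Agent.TH464.PO.QH (Pool.Agent.W123.RU.Poly.Q (LS.sq q b LS.f3)) J) l =
      rhoJ q b J l := by
    unfold Pool.Agent.H373R2.T7.nuB rhoJ Pool.Agent.TH464.PO.QH
    simp only [Q_iff q b hlp]
  rw [this]

/-- **The exact positions of the good integers in short blocks.** Let `C`, `K`, `x₀` and `θ, ε > 0`. There is `r0`
such that for all `r ≥ r0` and all large `X`, `z = X ^ (1 / r)` (integer part), for ALL `1 ≤ q ≤ X ^ C` and all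
`b ≤ X ^ C` with `b (b ^ 2 + b + 1)` prime to `q`: (1) if `1 ≤ n = q m + b ≤ X ^ C` and `m` is good then `n` and
`n ^ 2 + n + 1` have at most `r (2 C + 2)` prime factors, and `m` is good if `n` and `n ^ 2 + n + 1` are primes and
`n > z`; (2) for all intervals `(u, u + Y]` with `Y ≥ X ^ θ`, all sets `J` of at most `K` natural numbers with `0 ∈ J`
and all `T ≥ max J` with `T V ≤ x₀`: the number of the `m` in the interval for which the good integers in `[m, m + T]`
are exactly the `m + h`, `h ∈ J`, is `Y VJ exp (- T V)`, up to the factor `1 ± ε`. -/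
theorem result (C K : ℕ) (θ x0 ε : ℝ) (hθ : 0 < θ) (hε : 0 < ε) :
    ∃ r0 : ℕ, 1 ≤ r0 ∧ ∀ r : ℕ, r0 ≤ r → ∀ᶠ X : ℕ in atTop, ∀ z : ℕ, z = ⌊(X : ℝ) ^ (1 / (r : ℝ))⌋₊ →
      ∀ q b : ℕ, 1 ≤ q → q ≤ X ^ C → b ≤ X ^ C → Nat.Coprime (prodAt b) q →
        (∀ m : ℕ, 1 ≤ q * m + b → q * m + b ≤ X ^ C →
          (Good q b z m → (q * m + b).primeFactorsList.length ≤ r * (2 * C + 2) ∧
            ((q * m + b) ^ 2 + (q * m + b) + 1).primeFactorsList.length ≤ r * (2 * C + 2)) ∧
          ((q * m + b).Prime → z < q * m + b → ((q * m + b) ^ 2 + (q * m + b) + 1).Prime → Good q b z m)) ∧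
        ∀ u Y : ℕ, (X : ℝ) ^ θ ≤ Y → ∀ J : Finset ℕ, J.card ≤ K → 0 ∈ J → ∀ T : ℕ, (∀ h ∈ J, h ≤ T) →
          T * V q z ≤ x0 →
          |(Blocks q b z J T u Y : ℝ) - Y * VJ q b J z * Real.exp (-(T * V q z))| ≤
            ε * (Y * VJ q b J z * Real.exp (-(T * V q z))) := by
  classical
  obtain ⟨r0, h0⟩ := LS.blkF LS.f3 LS.sys3 le_rfl LS.notr3 C K θ hθ x0 ε hε
  refine ⟨max r0 1, le_max_right _ _, ?_⟩
  intro r hr
  have hr1 : 1 ≤ r := (le_max_right _ _).trans hr
  have hb2 : ∀ᶠ n : ℕ in atTop, (1 : ℝ) ≤ (n : ℝ) ^ (1 / (r : ℝ)) :=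
    ((tendsto_rpow_atTop (by positivity)).comp tendsto_natCast_atTop_atTop).eventually_ge_atTop _
  filter_upwards [h0 r ((le_max_left _ _).trans hr), hb2, eventually_ge_atTop 2] with X hX hX1 hX2
  intro z hz q b hq1 hqX hbX hco
  have hz1 : 1 ≤ z := by
    rw [hz]
    exact Nat.le_floor (by exact_mod_cast hX1)
  have hXC1 : 1 ≤ X ^ C := Nat.one_le_pow _ _ (by omega)
  have hcoZ : IsCoprime (RDW.GS LS.f3 b) (q : ℤ) := by
    rw [LS.GS3, Nat.isCoprime_iff_coprime]
    exact hco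
  refine ⟨?_, ?_⟩
  · intro m hm1 hm2
    have hXC2 : X ^ (2 * C + 2) = X ^ C * X ^ C * (X * X) := by ring
    have hXX : 4 ≤ X * X := by nlinarith
    have h4 : X ^ C * X ^ C * 4 ≤ X ^ C * X ^ C * (X * X) := Nat.mul_le_mul_left _ hXX
    have h5 : X ^ C * 1 ≤ X ^ C * X ^ C := Nat.mul_le_mul_left _ hXC1
    constructor
    · intro hg
      constructor
      · apply few hr1 (by omega) hz hz1 (by omega)
        · rw [hXC2]
          omega
        · intro p hp hpz hd
          exact hg p hp hpz (Dvd.dvd.mul_right hd _)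
      · apply few hr1 (by omega) hz hz1 (by omega)
        · have h6 : (q * m + b) ^ 2 ≤ X ^ C * X ^ C := by
            rw [sq]
            exact Nat.mul_le_mul hm2 hm2
          rw [hXC2]
          omega
        · intro p hp hpz hd
          exact hg p hp hpz (Dvd.dvd.mul_left hd _)
    · intro h1 h2 h3 p hp hpz hd
      unfold prodAt at hd
      rcases hp.dvd_mul.1 hd with hd | hd
      · have := (Nat.prime_dvd_prime_iff_eq hp h1).1 hd
        omega
      · have := (Nat.prime_dvd_prime_iff_eq hp h3).1 hd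
        have h6 : q * m + b ≤ (q * m + b) ^ 2 + (q * m + b) + 1 := by omega
        omega
  · intro u Y hY J hJK hJ0 S hJS hS
    have h := hX z hz q b hq1 hqX hbX hcoZ u Y hY J hJK hJ0 S hJS (by rw [V_eq hco]; exact hS)
    rw [V_eq hco, VJ_eq, good_eq] at h
    exact h

end Pool.Agent.Results.MP_82233c_nt.ExactBlocks
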