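import Pool.Agent.K1H73.LS.QX
import Pool.Agent.Y879.PR.Full

/-!
# Primes `n` with `n ^ 2 + n + 1` almost prime: asymptotics and law after them

In every class `b` modulo a fixed squarefree `q`: the asymptotic number of the PRIMES `n ≡ b` in all intervals for which
`n ^ 2 + n + 1` has no prime factor `≤ z = N ^ (1 / r)`, with the partial product `Hz z` of the constant `H` of the
conjecture, and the Poisson law for the number of the good integers (`n` and `n ^ 2 + n + 1` without prime factors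
`≤ z`) which follow such a prime.

The law after primes for systems of polynomials is the one of `Pool.Agent.Y879.PR` (`prime_full`) of the starting files.
New here: the system `n, n ^ 2 + n + 1` on progressions (`K1H73.LS`: the conditions of that theorem, uniformly in the
class; the local factors `2 + χ(l)`; the relation to `H`), and the application.
-/

set_option autoImplicit false

namespace Pool.Agent.Results.MP_82233c_nt.PrimesLaw

open Finset Filter
open Pool.Agent.K1H73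

/-- the product `n (n ^ 2 + n + 1)` -/
def prodAt (n : ℕ) : ℕ := n * (n ^ 2 + n + 1)

/-- neither `n` nor `n ^ 2 + n + 1`, where `n = q m + b`, has a prime factor `≤ z` -/
def Good (q b z m : ℕ) : Prop := ∀ l : ℕ, l.Prime → l ≤ z → ¬ l ∣ prodAt (q * m + b)

/-- `2 + χ(l)`: the number of the zeros of `n (n ^ 2 + n + 1)` modulo the prime `l` -/
def rho (l : ℕ) : ℕ := if l % 3 = 1 then 3 else if l % 3 = 2 then 1 else 2

/-- the sieve product over the primes `l ≤ z` which do not divide `q` -/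
noncomputable def V (q z : ℕ) : ℝ :=
  ∏ l ∈ (Finset.range (z + 1)).filter Nat.Prime, (1 - ((if l ∣ q then 0 else rho l : ℕ) : ℝ) / l)

/-- the same product, every factor divided by `1 - 1 / l` -/
noncomputable def W (q z : ℕ) : ℝ :=
  ∏ l ∈ (Finset.range (z + 1)).filter Nat.Prime,
    (1 - ((if l ∣ q then 0 else rho l : ℕ) : ℝ) / l) / (1 - 1 / (l : ℝ))

/-- the product over the primes `l ≤ z` in the definition of the constant `H` of the conjecture -/
noncomputable def Hz (z : ℕ) : ℝ := (1 / 2 : ℝ) * ∏ p ∈ (Finset.range (z + 1)).filter Nat.Prime,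
  ((1 - 1 / (p : ℝ))⁻¹) ^ 2 * (1 - (2 + (if p % 3 = 1 then (1 : ℝ) else if p % 3 = 2 then -1 else 0)) / (p : ℝ))

open Classical in
/-- the good `m` in `(u, u + Y]` for which `n = q m + b` is PRIME -/
noncomputable def P (q b z u Y : ℕ) : Finset ℕ :=
  (Ioc u (u + Y)).filter (fun m => (q * m + b).Prime ∧ Good q b z m)

open Classical in
/-- the number of the good `m'` in `(m, m + T]` -/
noncomputable def Next (q b z T m : ℕ) : ℕ :=
  ((Ioc m (m + T)).filter (fun m' => Good q b z m')).card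

lemma Q_iff (q b : ℕ) {p : ℕ} (hp : p.Prime) (m : ℕ) :
    Pool.Agent.W123.RU.Poly.Q (LS.sq q b LS.f3) p m ↔ p ∣ prodAt (q * m + b) := by
  rw [LS.sq_Q, LS.f3_iff hp]
  rfl

lemma good_eq (q b z : ℕ) : Pool.Agent.TH464.PO.Sf (Pool.Agent.W123.RU.Poly.Q (LS.sq q b LS.f3)) z = Good q b z := by
  funext m
  apply propext
  unfold Good Pool.Agent.TH464.PO.Sf
  constructor
  · intro h p hp hpz hd
    apply h p _ ((Q_iff q b hp m).2 hd)
    unfold Pool.Agent.H373R2.T7.pz
    rw [mem_filter, mem_Icc]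
    exact ⟨⟨hp.pos, hpz⟩, hp⟩
  · intro h p hp hd
    unfold Pool.Agent.H373R2.T7.pz at hp
    rw [mem_filter, mem_Icc] at hp
    exact h p hp.2 hp.1.2 ((Q_iff q b hp.2 m).1 hd)

lemma pz_eq (z : ℕ) : Pool.Agent.H373R2.T7.pz z = (Finset.range (z + 1)).filter Nat.Prime := by
  unfold Pool.Agent.H373R2.T7.pz
  ext p
  rw [mem_filter, mem_filter, mem_Icc, mem_range]
  constructor
  · rintro ⟨h1, h2⟩
    exact ⟨by omega, h2⟩
  · rintro ⟨h1, h2⟩
    exact ⟨⟨h2.pos, by omega⟩, h2⟩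

lemma nu_eq {q b : ℕ} (hco : Nat.Coprime (prodAt b) q) {l : ℕ} (hl : l.Prime) :
    Pool.Agent.H373R2.T7.nuB (Pool.Agent.W123.RU.Poly.Q (LS.sq q b LS.f3)) l = if l ∣ q then 0 else rho l := by
  rw [LS.nuB_sq hl (by
      intro hlq i hd
      have h1 : l ∣ prodAt b := (LS.f3_iff hl b).1 ⟨i, hd⟩
      have h2 := Nat.dvd_gcd h1 hlq
      rw [hco] at h2
      exact hl.one_lt.ne' (Nat.dvd_one.1 h2)), LS.om3 hl]
  rfl

lemma V_eq {q b : ℕ} (hco : Nat.Coprime (prodAt b) q) (z : ℕ) :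
    Pool.Agent.W123.RP.Vq (Pool.Agent.W123.RU.Poly.Q (LS.sq q b LS.f3)) z = V q z := by
  unfold Pool.Agent.W123.RP.Vq V
  rw [pz_eq]
  apply Finset.prod_congr rfl
  intro l hl
  rw [nu_eq hco (mem_filter.1 hl).2]

lemma W_eq {q b : ℕ} (hco : Nat.Coprime (prodAt b) q) (z : ℕ) :
    Pool.Agent.W123.RP.Vq (Pool.Agent.W123.RU.Poly.Q (LS.sq q b LS.f3)) z / Pool.Agent.H373R2.T7.Vz z = W q z := by
  rw [V_eq hco]
  unfold Pool.Agent.H373R2.T7.Vz V W
  rw [pz_eq, ← Finset.prod_div_distrib]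

lemma rho_lt {l : ℕ} (hl : l.Prime) : rho l < l := by
  unfold rho
  have h2 := hl.two_le
  split_ifs with h1 h3
  · have : l ≠ 3 := by omega
    have : l ≠ 1 := by omega
    omega
  · omega
  · have : l ≠ 2 := by
      rintro rfl
      omega
    omega

lemma rho_cast (l : ℕ) : ((rho l : ℕ) : ℝ) = 2 + (if l % 3 = 1 then (1 : ℝ) else if l % 3 = 2 then -1 else 0) := by
  unfold rho
  split_ifs <;> norm_num

lemma fac_pos (q : ℕ) {l : ℕ} (hl : l.Prime) : 0 < 1 - ((if l ∣ q then 0 else rho l : ℕ) : ℝ) / l := by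
  have h0 : (0 : ℝ) < l := by exact_mod_cast hl.pos
  rw [sub_pos, div_lt_one h0]
  split_ifs
  · exact_mod_cast hl.pos
  · exact_mod_cast rho_lt hl

lemma one_pos' {l : ℕ} (hl : l.Prime) : 0 < 1 - 1 / (l : ℝ) := by
  have h0 : (1 : ℝ) < l := by exact_mod_cast hl.one_lt
  rw [sub_pos, div_lt_one (by linarith)]
  exact h0

/-- the relation to the constant of the conjecture -/
lemma W_H {q z : ℕ} (hq : Squarefree q) (hqz : q ≤ z) :
    W q z = 2 * Hz z * (∏ l ∈ (Finset.range (z + 1)).filter Nat.Prime, (1 - 1 / (l : ℝ))) *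
      ∏ l ∈ q.primeFactors, (1 - (rho l : ℝ) / l)⁻¹ := by
  classical
  have hq0 : q ≠ 0 := hq.ne_zero
  have hsub : q.primeFactors ⊆ (Finset.range (z + 1)).filter Nat.Prime := by
    intro l hl
    have hlp := Nat.prime_of_mem_primeFactors hl
    have := Nat.le_of_dvd (Nat.pos_of_ne_zero hq0) (Nat.dvd_of_mem_primeFactors hl)
    rw [mem_filter, mem_range]
    exact ⟨by omega, hlp⟩
  have e1 : ∏ l ∈ q.primeFactors, (1 - (rho l : ℝ) / l)⁻¹ = ∏ l ∈ (Finset.range (z + 1)).filter Nat.Prime,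
      (if l ∣ q then (1 - (rho l : ℝ) / l)⁻¹ else 1) := by
    rw [← Finset.prod_sdiff hsub]
    have h1 : ∏ l ∈ ((Finset.range (z + 1)).filter Nat.Prime) \ q.primeFactors,
        (if l ∣ q then (1 - (rho l : ℝ) / l)⁻¹ else 1) = 1 := by
      apply Finset.prod_eq_one
      intro l hl
      rw [Finset.mem_sdiff, mem_filter] at hl
      rw [if_neg]
      intro hd
      exact hl.2 (Nat.mem_primeFactors.2 ⟨hl.1.2, hd, hq0⟩)
    rw [h1, one_mul]
    apply Finset.prod_congr rfl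
    intro l hl
    rw [if_pos (Nat.dvd_of_mem_primeFactors hl)]
  rw [e1]
  unfold W Hz
  have e2 : (2 : ℝ) * ((1 / 2) * ∏ p ∈ (Finset.range (z + 1)).filter Nat.Prime,
      ((1 - 1 / (p : ℝ))⁻¹) ^ 2 * (1 - (2 + (if p % 3 = 1 then (1 : ℝ) else if p % 3 = 2 then -1 else 0)) / (p : ℝ))) =
      ∏ p ∈ (Finset.range (z + 1)).filter Nat.Prime, ((1 - 1 / (p : ℝ))⁻¹) ^ 2 * (1 - (rho p : ℝ) / p) := by
    have h12 : (2 : ℝ) * (1 / 2) = 1 := by norm_num
    rw [← mul_assoc, h12, one_mul]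
    apply Finset.prod_congr rfl
    intro p _
    rw [rho_cast]
  rw [e2, ← Finset.prod_mul_distrib, ← Finset.prod_mul_distrib]
  apply Finset.prod_congr rfl
  intro l hl
  have hlp := (mem_filter.1 hl).2
  have h1 := (one_pos' hlp).ne'
  have h2 : 0 < 1 - (rho l : ℝ) / l := by
    have := fac_pos 1 hlp
    rwa [if_neg (fun h => hlp.one_lt.ne' (Nat.dvd_one.1 h))] at this
  split_ifs with h
  · rw [Nat.cast_zero, zero_div, sub_zero]
    field_simp
  · field_simp

/-- **Primes `n` with `n ^ 2 + n + 1` almost prime.** Let `q` be squarefree. For all `θ, δ > 0`, `x0`, `ε > 0` there is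
`r0` such that for all `r ≥ r0` and all large `N`, `z = N ^ (1 / r)` (integer part), for all `b ≤ N ^ (θ / 4)` with
`b (b ^ 2 + b + 1)` prime to `q`: `V, W > 0`, `W` is `2 Hz(z)` times the product of `1 - 1 / l` over the primes `l ≤ z`
times a factor for the modulus, and for all intervals `(u, u + Y]` with `Y ≥ δ X`, `u + Y ≤ X`, `X ≥ N ^ θ`, the number
of the `m` for which `n = q m + b` is PRIME and `n ^ 2 + n + 1` has no prime factor `≤ z` (and `n > z`) is
`Y W / log X`, up to the factor `1 + ε`, and the number of the good `m'` which follow such an `m` within `T` has the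
Poisson distribution of mean `T V ≤ x0`. -/
theorem result (q : ℕ) (hq : Squarefree q) (θ δ : ℝ) (hθ : 0 < θ) (hδ : 0 < δ)
    (hδ1 : δ ≤ 1) (x0 ε : ℝ) (hε : 0 < ε) (hε1 : ε ≤ 1) :
    ∃ r0 : ℕ, 2 ≤ r0 ∧ ∀ r : ℕ, r0 ≤ r → ∀ᶠ N : ℕ in atTop, ∀ z : ℕ, z = ⌊(N : ℝ) ^ (1 / (r : ℝ))⌋₊ →
      (0 < V q z ∧ 0 < W q z ∧
        W q z = 2 * Hz z * (∏ l ∈ (Finset.range (z + 1)).filter Nat.Prime, (1 - 1 / (l : ℝ))) *
          ∏ l ∈ q.primeFactors, (1 - (rho l : ℝ) / l)⁻¹) ∧
      ∀ b : ℕ, (b : ℝ) ≤ (N : ℝ) ^ (θ / 4) → Nat.Coprime (prodAt b) q →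
        ∀ X : ℕ, (N : ℝ) ^ θ ≤ X → ∀ u Y : ℕ, δ * X ≤ Y → u + Y ≤ X →
        |((P q b z u Y).card : ℝ) * Real.log X - Y * W q z| ≤ ε * (Y * W q z) ∧
        ∀ T : ℕ, T * V q z ≤ x0 → ∀ J : Finset ℕ,
        |(((P q b z u Y).filter (fun m => Next q b z T m ∈ J)).card : ℝ) -
            (P q b z u Y).card * ∑ j ∈ J, Real.exp (-(T * V q z)) * (T * V q z) ^ j / j.factorial| ≤
          ε * (P q b z u Y).card := by
  classical
  have hq1 : 1 ≤ q := Nat.pos_of_ne_zero hq.ne_zero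
  obtain ⟨C', hC'⟩ : ∃ C' : ℕ, θ / 4 ≤ C' := exists_nat_ge _
  obtain ⟨D, E, hE, hus⟩ := LS.us_prog LS.f3 LS.sys3 LS.notr3 (C' + 1)
  obtain ⟨r0, hr0, h0⟩ := Pool.Agent.Y879.PR.prime_full q 2 D hq (E : ℝ) 1 θ δ (by exact_mod_cast hE) one_pos hθ hδ hδ1
    x0 ε hε hε1
  refine ⟨r0, hr0, ?_⟩
  intro r hr
  have hr2 : 2 ≤ r := hr0.trans hr
  obtain ⟨M, hM, hV⟩ := LS.V_prog LS.f3 LS.sys3 le_rfl (C' + 1) r (by omega)
  have hyb : ∀ᶠ N : ℕ in atTop, (q : ℝ) ≤ (N : ℝ) ^ (1 / (r : ℝ)) :=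
    ((tendsto_rpow_atTop (by positivity)).comp tendsto_natCast_atTop_atTop).eventually_ge_atTop _
  filter_upwards [h0 r hr M, hV, hus, hyb, eventually_ge_atTop (max 2 q)] with N hN hN1 hN2 hN3 hN4
  intro z hz
  have hN22 : 2 ≤ N := (le_max_left _ _).trans hN4
  have hqN : q ≤ N := (le_max_right _ _).trans hN4
  have hqC : q ≤ N ^ (C' + 1) := hqN.trans (Nat.le_self_pow (by omega) N)
  have hqz : q ≤ z := by
    rw [hz]
    exact Nat.le_floor hN3
  refine ⟨⟨?_, ?_, W_H hq hqz⟩, ?_⟩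
  · unfold V
    exact Finset.prod_pos fun l hl => fac_pos q (mem_filter.1 hl).2
  · unfold W
    exact Finset.prod_pos fun l hl => div_pos (fac_pos q (mem_filter.1 hl).2) (one_pos' (mem_filter.1 hl).2)
  · intro b hb hco X hX u Y hY huY
    have hcoZ : IsCoprime (RDW.GS LS.f3 b) (q : ℤ) := by
      rw [LS.GS3, Nat.isCoprime_iff_coprime]
      exact hco
    have hNR : (1 : ℝ) ≤ N := by exact_mod_cast (by omega : 1 ≤ N)
    have hbC : b ≤ N ^ (C' + 1) := by
      have h1 : (b : ℝ) ≤ (N : ℝ) ^ ((C' + 1 : ℕ) : ℝ) := by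
        refine hb.trans (Real.rpow_le_rpow_of_exponent_le hNR ?_)
        push_cast
        linarith
      rw [Real.rpow_natCast] at h1
      exact_mod_cast h1
    have hcb : Nat.Coprime q b := by
      have h1 : Nat.Coprime b q := Nat.Coprime.coprime_dvd_left (Dvd.intro _ rfl) hco
      exact h1.symm
    have h := hN (LS.sq q b LS.f3) b (hN2 _ q b hq1 hqC hbC hcoZ) hcb (by
      intro p n hp hpq hQ
      rw [Q_iff q b hp] at hQ
      have h1 : p ∣ prodAt b := by
        have h2 : (p : ℤ) ∣ RDW.GS LS.f3 (b + q * n) := by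
          rw [LS.GS3, add_comm]
          exact_mod_cast hQ
        have h3 : (p : ℤ) ∣ ((b + q * n : ℕ) : ℤ) - (b : ℕ) := by
          push_cast
          rw [add_sub_cancel_left]
          exact Dvd.dvd.mul_right (by exact_mod_cast hpq) _
        have h4 := ((RDW.PF_GS LS.f3).dvd_iff h3).1 h2
        rw [LS.GS3] at h4
        exact_mod_cast h4
      have h2 := Nat.dvd_gcd h1 hpq
      rw [hco] at h2
      exact hp.one_lt.ne' (Nat.dvd_one.1 h2)) ⟨0, fun n => by
        show (LS.cq q b (LS.f3 0)).eval (n : ℤ) = _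
        rw [LS.cq_eval, LS.f3_0]
        push_cast
        ring⟩ (hN1 q b hq1 hqC hcoZ) hb X hX u Y hY huY
    rw [← hz, W_eq hco, V_eq hco] at h
    have hOm : ∀ u Y : ℕ, Pool.Agent.Y879.PR.Om q b (Pool.Agent.W123.RU.Poly.Q (LS.sq q b LS.f3)) z u Y =
        P q b z u Y := by
      intro u Y
      unfold Pool.Agent.Y879.PR.Om P
      rw [good_eq]
    have hWc : ∀ T m : ℕ, Pool.Agent.TH464.PO.Wc (Pool.Agent.TH464.PO.Sf
        (Pool.Agent.W123.RU.Poly.Q (LS.sq q b LS.f3)) z) m T = Next q b z T m := by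
      intro T m
      unfold Pool.Agent.TH464.PO.Wc Next
      rw [good_eq]
    rw [hOm] at h
    refine ⟨h.1, ?_⟩
    intro T hT J
    have k3 := h.2 T hT J
    simp only [hWc] at k3
    exact k3

end Pool.Agent.Results.MP_82233c_nt.PrimesLaw
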