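import Pool.Agent.K1H73.RDW.AP

/-!
# The pairs `p`, `p ^ 2 + p + 1` in arithmetic progressions with large moduli, short intervals and restricted digits

For all `q, a, B ≤ L ^ E`, `a (a ^ 2 + a + 1)` prime to `q`, and every base `b`: among the terms `p = a + q m`,
`B < m ≤ B + L`, of the progression for which the last `K = log_b (L / 3)` (integer part) digits of `m` belong to
arbitrary sets `A i`, with the product of the `|A i|` at least `exp (- c K) b ^ K`, at least the expected number is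
such that `p` and `p ^ 2 + p + 1` are products of at most `r` primes `l`, all with `l ^ r > b ^ K`, and at most the
expected number such that both are primes, up to constant factors; uniformly in `q`, `a`, `B` and the `A i`.

The sieve for integers with restricted digits is the one of `Pool.Agent.Y816.PD` of the starting files (`uni_fun`;
`digits_quadX` there is the case `q = 1`, `B = 0`, not handed in); new here: the progressions, uniformly in `q`, and the
short intervals.
-/

set_option autoImplicit false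

namespace Pool.Agent.Results.MP_82233c_nt.RestrictedDigits

open Finset Filter Polynomial
open Pool.Agent.K1H73.RDW

/-- `v > 1` is a product of at most `r` primes, all of them with `z < l ^ r` -/
def Almost (r z v : ℕ) : Prop := 1 < v ∧ v.primeFactorsList.length ≤ r ∧ ∀ l : ℕ, l.Prime → l ∣ v → z < l ^ r

/-- the number of the elements of `S` whose `i`-th digit in base `b` belongs to `A i` for all `i < K` -/
noncomputable def count (b K : ℕ) (A : ℕ → Finset ℕ) (S : Set ℕ) : ℕ :=
  {m : ℕ | m ∈ S ∧ ∀ i < K, m / b ^ i % b ∈ A i}.ncard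

/-- the `m` in `(B, B + L]` for which `p = a + q m` and `p ^ 2 + p + 1` are almost primes -/
def P (q a B L r z : ℕ) : Set ℕ := {m | (B < m ∧ m ≤ B + L) ∧ Almost r z (a + q * m) ∧
  Almost r z ((a + q * m) ^ 2 + (a + q * m) + 1)}

/-- the `m` in `(B, B + L]` for which `p = a + q m` and `p ^ 2 + p + 1` are primes -/
def T (q a B L : ℕ) : Set ℕ := {m | (B < m ∧ m ≤ B + L) ∧ (a + q * m).Prime ∧
  ((a + q * m) ^ 2 + (a + q * m) + 1).Prime}

/-- the number of the zeros of `x (x ^ 2 + x + 1)` modulo `l`; for primes `l` it is the number `2 + χ(l)` of the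
conjecture -/
def rho (l : ℕ) : ℕ := ((range l).filter (fun x => l ∣ x * (x ^ 2 + x + 1))).card

/-- the factor of the progression with the modulus `q` -/
noncomputable def Phi (q : ℕ) : ℝ := ∏ l ∈ q.primeFactors, (1 - (rho l : ℝ) / l)⁻¹

/-- the two polynomials -/
noncomputable def f (i : Bool) : ℤ[X] := if i then X else Pool.Agent.TH464.PW.quad 1 1 1

theorem f_true : f true = X := rfl

theorem f_false (m : ℕ) : (f false).eval (m : ℤ) = ((m ^ 2 + m + 1 : ℕ) : ℤ) := by
  show (Pool.Agent.TH464.PW.quad 1 1 1).eval (m : ℤ) = _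
  rw [Pool.Agent.TH464.PW.quad_eval]
  push_cast
  ring

theorem sys : Pool.Agent.W123.RU.Poly.Sys f := by
  have hD : ¬ IsSquare ((1 : ℤ) ^ 2 - 4 * 1 * 1) := by
    rintro ⟨x, hx⟩
    have := mul_self_nonneg x
    omega
  have hq : Irreducible (Pool.Agent.TH464.PW.quad 1 1 1) :=
    Pool.Agent.TH464.PW.quad_irr 1 1 1 one_ne_zero (fun p hp h => by
      have h1 : (p : ℤ) ∣ 1 := h.1
      have h2 : p ∣ 1 := by exact_mod_cast h1
      exact hp.one_lt.ne' (Nat.dvd_one.1 h2)) hD
  have hdq := Pool.Agent.TH464.PW.quad_deg 1 1 1 one_ne_zero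
  have hlq := Pool.Agent.TH464.PW.quad_lead 1 1 1 one_ne_zero
  have hne : (X : ℤ[X]) ≠ Pool.Agent.TH464.PW.quad 1 1 1 := by
    intro h
    rw [← h, natDegree_X] at hdq
    omega
  constructor
  · intro i
    cases i
    · exact hq
    · exact irreducible_X
  · intro i
    cases i
    · show 0 < (Pool.Agent.TH464.PW.quad 1 1 1).natDegree
      rw [hdq]; norm_num
    · show 0 < (X : ℤ[X]).natDegree
      simp
  · intro i
    cases i
    · show 0 < (Pool.Agent.TH464.PW.quad 1 1 1).leadingCoeff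
      rw [hlq]; norm_num
    · show 0 < (X : ℤ[X]).leadingCoeff
      simp
  · intro i j hij
    cases i <;> cases j
    · rfl
    · exact absurd hij.symm hne
    · exact absurd hij hne
    · rfl
  · intro p hp
    rcases Nat.lt_or_ge p 3 with h3 | h3
    · have : p = 2 := by have := hp.two_le; omega
      subst this
      refine ⟨1, fun i => ?_⟩
      cases i
      · rw [f_false]; norm_num
      · rw [f_true, eval_X]; norm_num
    · refine ⟨p - 1, fun i => ?_⟩
      cases i
      · rw [f_false]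
        intro hd
        have h4 : p ∣ (p - 1) ^ 2 + (p - 1) + 1 := by exact_mod_cast hd
        obtain ⟨u, rfl⟩ : ∃ u, p = u + 1 := ⟨p - 1, by omega⟩
        rw [Nat.add_sub_cancel] at h4
        have h5 : u ^ 2 + u + 1 = (u + 1) * u + 1 := by ring
        rw [h5] at h4
        exact hp.one_lt.ne' (Nat.dvd_one.1 ((Nat.dvd_add_right (dvd_mul_right _ _)).1 h4))
      · rw [f_true, eval_X]
        intro hd
        have h4 : p ∣ p - 1 := by exact_mod_cast hd
        have := Nat.le_of_dvd (by omega) h4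
        omega

theorem f_cop (x n : ℕ) : (∀ i, IsCoprime ((f i).eval (x : ℤ)) (n : ℤ)) ↔ Nat.Coprime (x * (x ^ 2 + x + 1)) n := by
  rw [Nat.coprime_mul_iff_left]
  constructor
  · intro h
    have h1 := h true
    have h2 := h false
    rw [f_true, eval_X] at h1
    rw [f_false] at h2
    exact ⟨Nat.isCoprime_iff_coprime.1 h1, Nat.isCoprime_iff_coprime.1 h2⟩
  · rintro ⟨h1, h2⟩ i
    cases i
    · rw [f_false]
      exact Nat.isCoprime_iff_coprime.2 h2
    · rw [f_true, eval_X]
      exact Nat.isCoprime_iff_coprime.2 h1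

theorem GS_f (m : ℕ) : GS f m = ((m * (m ^ 2 + m + 1) : ℕ) : ℤ) := by
  unfold GS
  rw [Fintype.prod_bool, f_true, eval_X, f_false]
  push_cast
  ring

theorem Phi_eq (q : ℕ) : Pool.Agent.K1H73.RDW.Phi (GS f) q = Phi q := by
  classical
  unfold Pool.Agent.K1H73.RDW.Phi Phi
  apply prod_congr rfl
  intro l _
  have h1 : om (GS f) l = rho l := by
    unfold om rho
    congr 1
    ext x
    rw [mem_filter, mem_filter, GS_f, Int.natCast_dvd_natCast]
  rw [h1]

/-- **The pairs `p`, `p ^ 2 + p + 1` in progressions, short intervals and with restricted digits.** -/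
theorem result (E : ℕ) :
    ∃ c : ℝ, 0 < c ∧ ∃ r₀ : ℕ, 2 ≤ r₀ ∧ ∀ r : ℕ, r₀ ≤ r → ∀ b : ℕ, 2 ≤ b → ∃ κ C : ℝ, 0 < κ ∧ 0 < C ∧
      ∀ᶠ L : ℕ in atTop, ∀ q a : ℕ, 1 ≤ q → q ≤ L ^ E → a ≤ L ^ E → Nat.Coprime (a * (a ^ 2 + a + 1)) q →
        (∃ d < b, Nat.Coprime ((a + q * d) * ((a + q * d) ^ 2 + (a + q * d) + 1)) b) ∧
        ∀ B : ℕ, B ≤ L ^ E → ∀ K : ℕ, K = Nat.log b (L / 3) →
          ∀ A : ℕ → Finset ℕ, (∀ i < K, A i ⊆ range b) →
            (b : ℝ) ^ K ≤ Real.exp (c * K) * ∏ i ∈ range K, ((A i).card : ℝ) →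
          ((∃ d ∈ A 0, Nat.Coprime ((a + q * d) * ((a + q * d) ^ 2 + (a + q * d) + 1)) b) →
            κ * Phi q * (∏ i ∈ range K, ((A i).card : ℝ)) / (K : ℝ) ^ 2 ≤ count b K A (P q a B L r (b ^ K))) ∧
          (count b K A (T q a B L) : ℝ) ≤ C * Phi q * (∏ i ∈ range K, ((A i).card : ℝ)) / (K : ℝ) ^ 2 := by
  obtain ⟨c, hc, r₀, hr₀, h⟩ := mainAP f sys 2 (by simp) (by norm_num) E
  refine ⟨c, hc, r₀, hr₀, fun r hr b hb => ?_⟩
  have h2r : 2 ≤ r := hr₀.trans hr
  obtain ⟨κ, C, hκ, hC, h1⟩ := h r hr b hb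
  refine ⟨κ, C, hκ, hC, ?_⟩
  filter_upwards [h1] with L hL q a hq hqL haL hcop
  obtain ⟨-, -, -, e0⟩ := hL (Nat.log b (L / 3)) rfl
  refine ⟨?_, fun B hB K hK A hA hprod => ?_⟩
  · obtain ⟨⟨d, hd, hd2⟩, -⟩ := e0 q a hq hqL haL ((f_cop a q).2 hcop)
    exact ⟨d, hd, (f_cop _ b).1 hd2⟩
  obtain ⟨e1, e2, e3, e4⟩ := hL K hK
  obtain ⟨-, e5⟩ := e4 q a hq hqL haL ((f_cop a q).2 hcop)
  obtain ⟨h2, h3⟩ := e5 B hB A hA hprod
  rw [Phi_eq] at h2 h3
  constructor
  · rintro ⟨d, hd, hcopd⟩
    refine h2 (P q a B L r (b ^ K)) ((finite_toSet (Ioc B (B + L))).subset fun m hm => by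
      rw [mem_coe, mem_Ioc]; exact hm.1) ?_ ⟨d, hd, (f_cop _ b).2 hcopd⟩
    intro m hm1 hm2 hm3
    have h4 := hm3 true
    have h5 := hm3 false
    rw [f_true, eval_X, Int.natAbs_natCast] at h4
    rw [f_false, Int.natAbs_natCast] at h5
    have hv0 : 1 ≤ a + q * m := by
      have : 1 ≤ q * m := Nat.mul_pos hq (by omega)
      omega
    have hm4 : 1 < a + q * m := by
      by_contra hcon
      have hm1' : a + q * m = 1 := by omega
      have h6 := h5.2.2 3 Nat.prime_three (by rw [hm1']; norm_num)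
      have h7 : 4 ^ r ≤ b ^ K := by
        calc 4 ^ r = 2 ^ (2 * r) := by rw [pow_mul]; norm_num
          _ ≤ b ^ (2 * r) := Nat.pow_le_pow_left hb _
          _ ≤ b ^ K := Nat.pow_le_pow_right (by omega) e1
      have h8 : 3 ^ r ≤ 4 ^ r := Nat.pow_le_pow_left (by norm_num) r
      omega
    refine ⟨⟨hm1, hm2⟩, ⟨hm4, h4.2.1, fun l hl hd => h4.2.2 l hl (Int.natCast_dvd_natCast.2 hd)⟩,
      ⟨by nlinarith, h5.2.1, fun l hl hd => h5.2.2 l hl (Int.natCast_dvd_natCast.2 hd)⟩⟩
  · obtain ⟨z, hz⟩ : ∃ z, z = Nat.sqrt (b ^ K) := ⟨_, rfl⟩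
    refine h3 (T q a B L) ((range (z + 1) : Finset ℕ) : Set ℕ) (finite_toSet _) (by
      rw [Set.ncard_coe_finset, card_range]
      omega) ?_
    rintro m ⟨hm, hp, hp2⟩
    refine ⟨hm, ?_⟩
    rcases Nat.lt_or_ge m (z + 1) with h4 | h4
    · left
      rw [mem_coe, mem_range]
      exact h4
    · right
      have hmv : m ≤ a + q * m := by
        have : m ≤ q * m := Nat.le_mul_of_pos_left m hq
        omega
      have hbig : ∀ l : ℕ, m ≤ l → b ^ K ≤ l ^ r := by
        intro l hl
        have h5 : b ^ K < (z + 1) ^ 2 := by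
          rw [hz, sq]
          exact Nat.lt_succ_sqrt _
        calc b ^ K ≤ (z + 1) ^ 2 := h5.le
          _ ≤ l ^ 2 := Nat.pow_le_pow_left (by omega) 2
          _ ≤ l ^ r := Nat.pow_le_pow_right (by omega) h2r
      intro i l hl hd
      cases i
      · rw [f_false] at hd
        have h5 : l ∣ (a + q * m) ^ 2 + (a + q * m) + 1 := by exact_mod_cast hd
        have h6 := (Nat.prime_dvd_prime_iff_eq hl hp2).1 h5
        apply hbig
        rw [h6]
        nlinarith
      · rw [f_true, eval_X] at hd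
        have h5 : l ∣ a + q * m := by exact_mod_cast hd
        have h6 := (Nat.prime_dvd_prime_iff_eq hl hp).1 h5
        apply hbig
        rw [h6]
        exact hmv

end Pool.Agent.Results.MP_82233c_nt.RestrictedDigits
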